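import Mathlib

namespace Pool.Agent.Results.MP_cf426b_al.Rank4

/-- the commuting graph of a semigroup -/
def commGraph (S : Type) [Semigroup S] : SimpleGraph {x : S // ¬ ∀ s : S, x * s = s * x} where
  Adj x y := x ≠ y ∧ x.1 * y.1 = y.1 * x.1
  symm := ⟨fun _ _ h => ⟨h.1.symm, h.2.symm⟩⟩
  loopless := ⟨fun _ h => h.1 rfl⟩

inductive T (A : Type)
  | zero : T A
  | g : Bool → A → Bool → T A
  | m : A → Bool → A → T A
  deriving DecidableEq

open T

section
variable {A : Type} [CommRing A] [DecidableEq A]

def sg (s : Bool) (x : A) : A := if s then -x else x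

def Near (x : A) : Prop := x = 0 ∨ x = 1 ∨ x = -1

instance (x : A) : Decidable (Near x) := by unfold Near; infer_instance

def mul : T A → T A → T A
  | g s a d, g t b e => g (xor s t) (sg s b + a) (xor d e)
  | g s a d, m i e l => m (sg s i + a) (xor d e) l
  | m i e l, g s a _ => m i e (sg s (l - a))
  | m i e l, m j _ k => if Near (l - j) then zero else m i e k
  | _, _ => zero

omit [DecidableEq A] in
lemma near_neg (x : A) : Near (-x) ↔ Near x := by
  unfold Near
  rw [neg_eq_zero, neg_eq_iff_eq_neg, neg_inj]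
  tauto

omit [DecidableEq A] in
lemma near_sg (s : Bool) (l a j : A) : Near (sg s (l - a) - j) ↔ Near (l - (sg s j + a)) := by
  cases s
  · simp only [sg, Bool.false_eq_true, if_false]; rw [show l - a - j = l - (j + a) by ring]
  · simp only [sg, if_true]; rw [← near_neg, show -(-(l - a) - j) = l - (-j + a) by ring]

instance : Semigroup (T A) where
  mul := mul
  mul_assoc x y z := by
    show mul (mul x y) z = mul x (mul y z)
    rcases x with _ | ⟨s, a, d⟩ | ⟨i, e, l⟩ <;> rcases y with _ | ⟨t, b, c⟩ | ⟨j, f, k⟩ <;>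
      rcases z with _ | ⟨u, p, q⟩ | ⟨v, h, w⟩ <;> simp only [mul, near_sg] <;>
      first
      | (split_ifs <;> simp_all only [if_true, if_false])
      | (cases s <;> cases t <;> simp [sg] <;> ring)
      | (cases u <;> cases t <;> simp [sg] <;> ring)

lemma mul_def (x y : T A) : x * y = mul x y := rfl

abbrev V (A : Type) [CommRing A] [DecidableEq A] := {x : T A // ¬ ∀ s : T A, x * s = s * x}

def vm (i : A) (e : Bool) (l : A) : V A :=
  ⟨m i e l, fun h => by simpa [mul_def, mul] using h (g false 0 true)⟩

def vz : V A := ⟨g false 0 true, fun h => by simpa [mul_def, mul] using h (m 0 false 0)⟩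

lemma reach {x y : V A} (h : x.1 * y.1 = y.1 * x.1) : (commGraph (T A)).Reachable x y := by
  by_cases e : x = y
  · rw [e]
  · exact SimpleGraph.Adj.reachable ⟨e, h⟩

lemma reach_g {x : V A} {s : Bool} {a : A} {d : Bool} (h : x.1 = g s a d) :
    (commGraph (T A)).Reachable x vz :=
  reach (by rw [h]; cases s <;> simp [vz, mul_def, mul, sg])

lemma reach_m (h2 : (2 : A) ≠ 0) (i : A) (e : Bool) (n : ℕ) :
    (commGraph (T A)).Reachable (vm i e (i + n)) vz := by
  induction n with
  | zero =>
    let r : V A := ⟨g true (2 * i) false, fun h => h2 (by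
      have := h (m (i + 1) false i)
      simp only [mul_def, mul, sg, if_true, m.injEq] at this
      linear_combination -this.1)⟩
    refine (reach (y := r) ?_).trans (reach_g rfl)
    simp only [vm, r, mul_def, mul, sg, if_true, m.injEq, Nat.cast_zero, Bool.false_xor, true_and]
    constructor <;> ring
  | succ n ih =>
    refine (reach (y := vm (i + n) e i) ?_).trans ((reach ?_).trans ih) <;>
      simp [vm, mul_def, mul, Near]

end

section
variable (D : ℕ)

abbrev A (D : ℕ) := ZMod (4 * D + 3)

def nu (x : A D) : ℕ := x.valMinAbs.natAbs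

variable {D}

lemma nu_add (x y : A D) : nu D (x + y) ≤ nu D x + nu D y :=
  (ZMod.natAbs_valMinAbs_add_le x y).trans (Int.natAbs_add_le _ _)

lemma nu_neg (x : A D) : nu D (-x) = nu D x := ZMod.natAbs_valMinAbs_neg x

lemma nu_nat (k : ℕ) (hk : k ≤ 2 * D + 1) : nu D (k : A D) = k := by
  rw [nu, ZMod.valMinAbs_natCast_of_le_half (by omega)]; simp

lemma nu_near {x : A D} (h : Near x) : nu D x ≤ 1 := by
  have h1 : nu D 1 = 1 := by simpa using nu_nat (D := D) 1 (by omega)
  rcases h with rfl | rfl | rfl
  · simp [nu]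
  · exact h1.le
  · rw [nu_neg, h1]

lemma two_cancel {x : A D} (h : 2 * x = 0) : x = 0 := by
  have : ((4 * D + 3 : ℕ) : A D) = 0 := ZMod.natCast_self _
  push_cast at this
  linear_combination (2 * D + 2) * h - x * this

def phi : T (A D) → ℕ
  | m i _ l => nu D (l - i)
  | _ => 0

lemma lip {x y : V (A D)} (h : (commGraph (T (A D))).Adj x y) : phi x.1 ≤ phi y.1 + 2 := by
  obtain ⟨x, hx⟩ := x
  obtain ⟨y, hy⟩ := y
  obtain ⟨hne, h⟩ := h
  rcases x with _ | ⟨s, a, d⟩ | ⟨i, e, l⟩
  · simp [phi]
  · simp [phi]
  rcases y with _ | ⟨s, a, d⟩ | ⟨j, f, k⟩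
  · exact absurd (fun s => by cases s <;> rfl) hy
  · simp only [mul_def, mul, m.injEq] at h
    obtain ⟨h1, h2, h3⟩ := h
    cases s
    · exfalso
      apply hy
      obtain rfl : a = 0 := by simpa [sg] using h1
      obtain rfl : d = false := by
        revert h2; cases d <;> cases e <;> simp
      intro s
      rcases s with _ | ⟨t, _, _⟩ | _
      · rfl
      · cases t <;> simp [mul_def, mul, sg]
      · simp [mul_def, mul, sg]
    · simp only [sg, if_true] at h1 h3
      have : l - i = 0 := two_cancel (by linear_combination -h3 - h1)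
      simp [phi, this, nu]
  · simp only [mul_def, mul] at h
    split_ifs at h with h1 h2 h2
    · have e : l - i = -(k - j) + ((l - j) + (k - i)) := by ring
      have a1 := nu_add (-(k - j)) ((l - j) + (k - i))
      have a2 := nu_add (l - j) (k - i)
      have a3 := nu_near h1
      have a4 := nu_near h2
      rw [nu_neg, ← e] at a1
      simp only [phi]
      omega
    · simp only [m.injEq] at h
      obtain ⟨rfl, rfl, rfl⟩ := h
      exact absurd rfl hne

lemma walk {x y : V (A D)} (p : (commGraph (T (A D))).Walk x y) :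
    phi x.1 ≤ phi y.1 + 2 * p.length := by
  induction p with
  | nil => simp
  | cons h p ih =>
    have := lip h
    simp only [SimpleGraph.Walk.length_cons]
    omega

lemma two_ne : (2 : A D) ≠ 0 := fun h => by
  have := nu_nat (D := D) 1 (by omega)
  rw [two_cancel (x := ((1 : ℕ) : A D)) (by simpa using h)] at this
  simp [nu] at this

lemma conn : (commGraph (T (A D))).Connected := by
  have : ∀ x : V (A D), (commGraph (T (A D))).Reachable x vz := by
    rintro ⟨x, hx⟩
    rcases x with _ | ⟨s, a, d⟩ | ⟨i, e, l⟩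
    · exact absurd (fun s => by cases s <;> rfl) hx
    · exact reach_g rfl
    · have := reach_m two_ne i e (l - i).val
      simpa [vm] using this
  have hn : Nonempty (V (A D)) := ⟨vz⟩
  exact ⟨fun x y => (this x).trans (this y).symm⟩

lemma gen : Subsemigroup.closure (({g true 0 false, g true 1 false, g false 0 true, m 0 false 0} :
    Finset (T (A D))) : Set (T (A D))) = ⊤ := by
  set C := Subsemigroup.closure (({g true 0 false, g true 1 false, g false 0 true, m 0 false 0} :
    Finset (T (A D))) : Set (T (A D)))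
  have r0 : g true 0 false ∈ C := Subsemigroup.subset_closure (by simp)
  have r1 : g true 1 false ∈ C := Subsemigroup.subset_closure (by simp)
  have z : g false 0 true ∈ C := Subsemigroup.subset_closure (by simp)
  have x0 : m 0 false 0 ∈ C := Subsemigroup.subset_closure (by simp)
  have t : ∀ n : ℕ, g false (n : A D) false ∈ C := by
    intro n
    induction n with
    | zero => simpa [mul_def, mul, sg] using C.mul_mem r0 r0
    | succ n ih => simpa [mul_def, mul, sg] using C.mul_mem (C.mul_mem r1 r0) ih
  have t' : ∀ a : A D, g false a false ∈ C := fun a => by simpa using t a.val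
  have hg : ∀ s a d, g s a d ∈ C := by
    intro s a d
    cases s <;> cases d
    · exact t' a
    · simpa [mul_def, mul, sg] using C.mul_mem (t' a) z
    · simpa [mul_def, mul, sg] using C.mul_mem (t' a) r0
    · simpa [mul_def, mul, sg] using C.mul_mem (C.mul_mem (t' a) r0) z
  rw [eq_top_iff]
  rintro (_ | ⟨s, a, d⟩ | ⟨i, e, l⟩) -
  · simpa [mul_def, mul, Near] using C.mul_mem x0 x0
  · exact hg s a d
  · simpa [mul_def, mul, sg] using C.mul_mem (C.mul_mem (hg false i e) x0) (t' (-l))

instance : Finite (T (A D)) :=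
  Finite.of_surjective (fun x : Option ((Bool × A D × Bool) ⊕ (A D × Bool × A D)) =>
    match x with
    | none => zero
    | some (.inl (s, a, d)) => g s a d
    | some (.inr (i, e, l)) => m i e l) (by
    rintro (_ | ⟨s, a, d⟩ | ⟨i, e, l⟩)
    exacts [⟨none, rfl⟩, ⟨some (.inl (s, a, d)), rfl⟩, ⟨some (.inr (i, e, l)), rfl⟩])

end

theorem result (D : ℕ) : ∃ (S : Type) (_ : Semigroup S) (X : Finset S), Finite S ∧ X.card ≤ 4 ∧
    Subsemigroup.closure (X : Set S) = ⊤ ∧ (commGraph S).Connected ∧
    (D : ℕ∞) ≤ (commGraph S).ediam := by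
  refine ⟨T (A D), inferInstance, _, inferInstance, Finset.card_le_four, gen, conn, ?_⟩
  refine le_trans ?_ (SimpleGraph.edist_le_ediam (u := vm 0 false ((2 * D : ℕ) : A D)) (v := vz))
  obtain ⟨p, hp⟩ := conn.exists_walk_length_eq_edist (vm 0 false ((2 * D : ℕ) : A D)) vz
  have := walk p
  rw [← hp]
  have k1 : phi (vm 0 false ((2 * D : ℕ) : A D)).1 = 2 * D := by
    simp only [vm, phi, sub_zero]
    exact nu_nat _ (by omega)
  have k2 : phi (vz : V (A D)).1 = 0 := rfl
  rw [k1, k2] at this
  exact Nat.cast_le.2 (by omega)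

end Pool.Agent.Results.MP_cf426b_al.Rank4
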